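import Mathlib

/-!
# MP_6967ea — is the supremum of the dichromatic numbers of the orientations attained?

Yes for every infinite cardinal which is not weakly inaccessible; for a weakly inaccessible
cardinal a counterexample produces a proper `κ`-complete `κ`-saturated ideal.
-/

open Cardinal Set

universe u v

namespace Pool.Agent.Results.MP_6967ea_co.Attain

/-- `D` is an orientation of `G`: arcs of `D` are edges of `G`, and every edge of `G` carries
exactly one of its two arcs. -/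
def IsOrientation {V : Type u} (G : SimpleGraph V) (D : V → V → Prop) : Prop :=
  ∀ x y, (D x y → G.Adj x y) ∧ (G.Adj x y → Xor (D x y) (D y x))

/-- No (finite) directed cycle of `D` lies inside `S`. -/
def AcyclicOn {V : Type u} (D : V → V → Prop) (S : Set V) : Prop :=
  ∀ x, ¬ Relation.TransGen (fun a b => a ∈ S ∧ b ∈ S ∧ D a b) x x

/-- The dichromatic number of a digraph. -/
noncomputable def dichi {V : Type u} (D : V → V → Prop) : Cardinal.{u} :=
  sInf {c | ∃ (C : Type u) (f : V → C), #C = c ∧ ∀ i, AcyclicOn D {x | f x = i}}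

/-- `κ` is weakly inaccessible: an uncountable regular limit cardinal. -/
def WeaklyInaccessible (κ : Cardinal.{u}) : Prop :=
  ℵ₀ < κ ∧ κ.IsRegular ∧ ∀ c < κ, Order.succ c < κ

/-! ### Covers by acyclic sets -/

/-- `A` is covered by at most `c` acyclic sets. -/
def Col {V : Type u} (D : V → V → Prop) (A : Set V) (c : Cardinal.{u}) : Prop :=
  ∃ 𝓒 : Set (Set V), #𝓒 ≤ c ∧ A ⊆ ⋃₀ 𝓒 ∧ ∀ S ∈ 𝓒, AcyclicOn D S

variable {V : Type u}

theorem AcyclicOn.mono {D : V → V → Prop} {S T : Set V} (h : AcyclicOn D S) (hT : T ⊆ S) :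
    AcyclicOn D T := by
  intro x hx
  exact h x (Relation.TransGen.mono (r := fun a b => a ∈ T ∧ b ∈ T ∧ D a b)
    (fun a b hab => ⟨hT hab.1, hT hab.2.1, hab.2.2⟩) x x hx)

theorem Col.mono {D : V → V → Prop} {A B : Set V} {c d : Cardinal.{u}} (h : Col D A c)
    (hB : B ⊆ A) (hd : c ≤ d) : Col D B d := by
  obtain ⟨𝓒, h1, h2, h3⟩ := h
  exact ⟨𝓒, h1.trans hd, hB.trans h2, h3⟩

theorem col_iUnion {D : V → V → Prop} {J : Type u} (A : J → Set V) (c : Cardinal.{u})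
    (h : ∀ j, Col D (A j) c) : Col D (⋃ j, A j) (#J * c) := by
  choose 𝓒 h1 h2 h3 using h
  refine ⟨⋃ j, 𝓒 j, ?_, ?_, ?_⟩
  · calc #(⋃ j, 𝓒 j) ≤ Cardinal.sum fun j => #(𝓒 j) := Cardinal.mk_iUnion_le_sum_mk
      _ ≤ Cardinal.sum fun _ : J => c := Cardinal.sum_le_sum _ _ h1
      _ = #J * c := Cardinal.sum_const' _ _
  · intro x hx
    obtain ⟨j, hj⟩ := mem_iUnion.1 hx
    obtain ⟨S, hS, hxS⟩ := h2 j hj
    exact ⟨S, mem_iUnion.2 ⟨j, hS⟩, hxS⟩
  · intro S hS
    obtain ⟨j, hj⟩ := mem_iUnion.1 hS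
    exact h3 j S hj

theorem col_union {D : V → V → Prop} {A B : Set V} {c d : Cardinal.{u}}
    (hA : Col D A c) (hB : Col D B d) : Col D (A ∪ B) (c + d) := by
  obtain ⟨𝓒, h1, h2, h3⟩ := hA
  obtain ⟨𝓓, k1, k2, k3⟩ := hB
  refine ⟨𝓒 ∪ 𝓓, (Cardinal.mk_union_le _ _).trans (add_le_add h1 k1), ?_, ?_⟩
  · rintro x (hx | hx)
    · obtain ⟨S, hS, hxS⟩ := h2 hx
      exact ⟨S, Or.inl hS, hxS⟩
    · obtain ⟨S, hS, hxS⟩ := k2 hx
      exact ⟨S, Or.inr hS, hxS⟩
  · rintro S (hS | hS)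
    · exact h3 S hS
    · exact k3 S hS

theorem col_of_fun {D : V → V → Prop} {A : Set V} {K : Type u} (f : V → K)
    (h : ∀ k, AcyclicOn D {x | x ∈ A ∧ f x = k}) : Col D A #K := by
  refine ⟨range fun k => {x | x ∈ A ∧ f x = k}, Cardinal.mk_range_le, ?_, ?_⟩
  · intro x hx
    exact ⟨_, ⟨f x, rfl⟩, hx, rfl⟩
  · rintro _ ⟨k, rfl⟩
    exact h k

theorem fun_of_col {D : V → V → Prop} {A : Set V} {K : Type u} [Nonempty K]
    (h : Col D A #K) : ∃ f : V → K, ∀ k, AcyclicOn D {x | x ∈ A ∧ f x = k} := by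
  classical
  obtain ⟨𝓒, h1, h2, h3⟩ := h
  obtain ⟨e⟩ : Nonempty (𝓒 ↪ K) := h1
  have hc : ∀ x : V, ∃ S : Set V, x ∈ A → S ∈ 𝓒 ∧ x ∈ S := by
    intro x
    by_cases hx : x ∈ A
    · obtain ⟨S, hS, hxS⟩ := h2 hx
      exact ⟨S, fun _ => ⟨hS, hxS⟩⟩
    · exact ⟨∅, fun h => absurd h hx⟩
  choose s hs using hc
  refine ⟨fun x => if h : s x ∈ 𝓒 then e ⟨s x, h⟩ else Classical.arbitrary K, fun k => ?_⟩
  by_cases hk : ∃ S : 𝓒, e S = k
  · obtain ⟨S, hS⟩ := hk
    refine (h3 S.1 S.2).mono ?_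
    rintro x ⟨hx, hfx⟩
    have h4 := (hs x hx).1
    simp only [h4, dite_true] at hfx
    have h5 : (⟨s x, h4⟩ : 𝓒) = S := e.injective (hfx.trans hS.symm)
    have h6 : s x = S.1 := congrArg Subtype.val h5
    exact h6 ▸ (hs x hx).2
  · have hemp : {x | x ∈ A ∧ (if h : s x ∈ 𝓒 then e ⟨s x, h⟩ else Classical.arbitrary K) = k}
        ⊆ ∅ := by
      rintro x ⟨hx, hfx⟩
      have h4 := (hs x hx).1
      simp only [h4, dite_true] at hfx
      exact hk ⟨_, hfx⟩
    intro x hx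
    obtain ⟨y, hy⟩ : ∃ y, y ∈ ({x | x ∈ A ∧
        (if h : s x ∈ 𝓒 then e ⟨s x, h⟩ else Classical.arbitrary K) = k} : Set V) := by
      rcases Relation.TransGen.head'_iff.1 hx with ⟨z, hz, _⟩
      exact ⟨x, hz.1⟩
    exact hemp hy

theorem dichi_le_iff (D : V → V → Prop) (hD : ∀ x, ¬ D x x) (c : Cardinal.{u}) :
    dichi D ≤ c ↔ Col D univ c := by
  constructor
  · intro h
    have hne : {c : Cardinal.{u} | ∃ (C : Type u) (f : V → C), #C = c ∧
        ∀ i, AcyclicOn D {x | f x = i}}.Nonempty := by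
      refine ⟨#V, V, id, rfl, fun i x hx => ?_⟩
      obtain ⟨z, hz, _⟩ := Relation.TransGen.head'_iff.1 hx
      obtain ⟨h1, h2, h3⟩ := hz
      simp only [id, Set.mem_ofPred_eq] at h1 h2
      subst h1
      subst h2
      exact hD _ h3
    obtain ⟨C, f, h1, h2⟩ := csInf_mem hne
    have h3 : Col D univ #C := col_of_fun f (fun k => (h2 k).mono (fun x hx => hx.2))
    exact h3.mono (subset_refl _) (h1.le.trans h)
  · rintro ⟨𝓒, h1, h2, h3⟩
    have hc : ∀ x : V, ∃ S : 𝓒, x ∈ S.1 := by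
      intro x
      obtain ⟨S, hS, hx⟩ := h2 (mem_univ x)
      exact ⟨⟨S, hS⟩, hx⟩
    choose f hf using hc
    refine le_trans (csInf_le' ⟨𝓒, f, rfl, fun S => (h3 S.1 S.2).mono ?_⟩) h1
    rintro x rfl
    exact hf x

/-! ### Gluing orientations along pairwise disjoint pieces -/

theorem combine (G : SimpleGraph V) {κ : Cardinal.{u}} (hκ : κ ≠ 0) {I : Type u}
    (A : I → Set V) (hA : ∀ i j, i ≠ j → Disjoint (A i) (A j))
    (E : I → V → V → Prop) (hE : ∀ i, IsOrientation G (E i))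
    (hcol : ∀ i, Col (E i) (A i) κ) (hunb : ∀ c < κ, ∃ i, ¬ Col (E i) (A i) c) :
    ∃ D, IsOrientation G D ∧ dichi D = κ := by
  classical
  let piece : V → I ⊕ V := fun x => if h : ∃ i, x ∈ A i then Sum.inl h.choose else Sum.inr x
  have hpl : ∀ x i, x ∈ A i → piece x = Sum.inl i := by
    intro x i hx
    have h : ∃ i, x ∈ A i := ⟨i, hx⟩
    have h1 : piece x = Sum.inl h.choose := by simp only [piece, h, dite_true]
    rw [h1]
    congr 1
    by_contra hne
    exact Set.disjoint_left.1 (hA _ _ hne) h.choose_spec hx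
  have hpl' : ∀ x i, piece x = Sum.inl i → x ∈ A i := by
    intro x i hx
    by_cases h : ∃ i, x ∈ A i
    · obtain ⟨j, hj⟩ := h
      have h1 := hpl x j hj
      rw [h1] at hx
      cases hx
      exact hj
    · simp only [piece, h, dite_false] at hx
      cases hx
  have hpr : ∀ x y, piece x = Sum.inr y → x = y := by
    intro x y hx
    by_cases h : ∃ i, x ∈ A i
    · obtain ⟨j, hj⟩ := h
      have h1 := hpl x j hj
      rw [h1] at hx
      cases hx
    · simp only [piece, h, dite_false] at hx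
      cases hx
      rfl
  let r : I ⊕ V → I ⊕ V → Prop := WellOrderingRel
  let D : V → V → Prop := fun x y => G.Adj x y ∧
    ((piece x = piece y ∧ ∃ i, piece x = Sum.inl i ∧ E i x y) ∨ r (piece x) (piece y))
  have hor : IsOrientation G D := by
    intro x y
    refine ⟨fun h => h.1, fun hadj => ?_⟩
    by_cases hp : piece x = piece y
    · have hirr : ∀ p, ¬ r p p := fun p => irrefl_of WellOrderingRel p
      rcases hpx : piece x with i | z
      · have hpy : piece y = Sum.inl i := hp ▸ hpx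
        have h1 : D x y ↔ E i x y := by
          constructor
          · rintro ⟨_, ⟨_, j, hj, hEj⟩ | hr⟩
            · rw [hpx] at hj
              cases hj
              exact hEj
            · rw [hp] at hr
              exact absurd hr (hirr _)
          · intro h
            exact ⟨hadj, Or.inl ⟨hp, i, hpx, h⟩⟩
        have h2 : D y x ↔ E i y x := by
          constructor
          · rintro ⟨_, ⟨_, j, hj, hEj⟩ | hr⟩
            · rw [hpy] at hj
              cases hj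
              exact hEj
            · rw [hp] at hr
              exact absurd hr (hirr _)
          · intro h
            exact ⟨hadj.symm, Or.inl ⟨hp.symm, i, hpy, h⟩⟩
        rw [h1, h2]
        exact (hE i x y).2 hadj
      · have h1 := hpr x z hpx
        have h2 := hpr y z (hp ▸ hpx)
        rw [h1, h2] at hadj
        exact absurd rfl hadj.ne
    · have h1 : D x y ↔ r (piece x) (piece y) :=
        ⟨fun h => h.2.resolve_left (fun h => hp h.1), fun h => ⟨hadj, Or.inr h⟩⟩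
      have h2 : D y x ↔ r (piece y) (piece x) :=
        ⟨fun h => h.2.resolve_left (fun h => hp h.1.symm), fun h => ⟨hadj.symm, Or.inr h⟩⟩
      rw [h1, h2]
      rcases trichotomous_of WellOrderingRel (piece x) (piece y) with h | h | h
      · exact Or.inl ⟨h, asymm_of WellOrderingRel h⟩
      · exact absurd h hp
      · exact Or.inr ⟨h, asymm_of WellOrderingRel h⟩
  have hirrD : ∀ x, ¬ D x x := fun x h => absurd rfl h.1.ne
  refine ⟨D, hor, le_antisymm ?_ ?_⟩
  · rw [dichi_le_iff D hirrD]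
    have hK : #(κ.out) = κ := Cardinal.mk_out κ
    have : Nonempty κ.out := by
      rw [← Cardinal.mk_ne_zero_iff, hK]
      exact hκ
    have hf : ∀ i, ∃ f : V → κ.out, ∀ k, AcyclicOn (E i) {x | x ∈ A i ∧ f x = k} :=
      fun i => fun_of_col (by rw [hK]; exact hcol i)
    choose f hf using hf
    let F : V → κ.out := fun x => if h : ∃ i, x ∈ A i then f h.choose x else Classical.arbitrary _
    have hF : ∀ x i, x ∈ A i → F x = f i x := by
      intro x i hx
      have h : ∃ i, x ∈ A i := ⟨i, hx⟩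
      have h1 : F x = f h.choose x := by simp only [F, h, dite_true]
      rw [h1]
      have h2 : h.choose = i := by
        by_contra hne
        exact Set.disjoint_left.1 (hA _ _ hne) h.choose_spec hx
      rw [h2]
    rw [← hK]
    refine col_of_fun F (fun k x hx => ?_)
    -- along a closed walk all pieces agree
    have key : ∀ y, Relation.TransGen
        (fun a b => a ∈ {x | x ∈ Set.univ ∧ F x = k} ∧ b ∈ {x | x ∈ Set.univ ∧ F x = k} ∧ D a b) x y →
        r (piece x) (piece y) ∨ (piece x = piece y ∧ ∃ i, piece x = Sum.inl i ∧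
          Relation.TransGen (fun a b => a ∈ {x | x ∈ A i ∧ f i x = k} ∧
            b ∈ {x | x ∈ A i ∧ f i x = k} ∧ E i a b) x y) := by
      intro y hy
      induction hy with
      | single h =>
        obtain ⟨ha, hb, _, ⟨h1, i, h2, h3⟩ | h1⟩ := h
        · refine Or.inr ⟨h1, i, h2, Relation.TransGen.single ⟨⟨hpl' _ _ h2, ?_⟩,
            ⟨hpl' _ _ (h1 ▸ h2), ?_⟩, h3⟩⟩
          · rw [← hF _ _ (hpl' _ _ h2)]
            exact ha.2
          · rw [← hF _ _ (hpl' _ _ (h1 ▸ h2))]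
            exact hb.2
        · exact Or.inl h1
      | tail _ h ih =>
        obtain ⟨ha, hb, _, ⟨h1, i, h2, h3⟩ | h1⟩ := h
        · rcases ih with ih | ⟨ih1, j, ih2, ih3⟩
          · exact Or.inl (h1 ▸ ih)
          · refine Or.inr ⟨ih1.trans h1, j, ih2, ?_⟩
            have hij : i = j := by
              rw [ih1, h2] at ih2
              cases ih2
              rfl
            subst hij
            refine Relation.TransGen.tail ih3 ⟨⟨hpl' _ _ h2, ?_⟩, ⟨hpl' _ _ (h1 ▸ h2), ?_⟩, h3⟩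
            · rw [← hF _ _ (hpl' _ _ h2)]
              exact ha.2
            · rw [← hF _ _ (hpl' _ _ (h1 ▸ h2))]
              exact hb.2
        · rcases ih with ih | ⟨ih1, j, ih2, ih3⟩
          · exact Or.inl (trans_of WellOrderingRel ih h1)
          · exact Or.inl (ih1 ▸ h1)
    rcases key x hx with h | ⟨_, i, _, h⟩
    · exact irrefl_of WellOrderingRel _ h
    · exact hf i k x h
  · by_contra hlt
    have hlt' : dichi D < κ := not_le.1 hlt
    obtain ⟨i, hi⟩ := hunb _ hlt'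
    apply hi
    have h1 : Col D univ (dichi D) := (dichi_le_iff D hirrD _).1 le_rfl
    obtain ⟨𝓒, k1, k2, k3⟩ := h1
    refine ⟨(fun S => S ∩ A i) '' 𝓒, (Cardinal.mk_image_le).trans k1, ?_, ?_⟩
    · intro x hx
      obtain ⟨S, hS, hxS⟩ := k2 (mem_univ x)
      exact ⟨S ∩ A i, ⟨S, hS, rfl⟩, hxS, hx⟩
    · rintro _ ⟨S, hS, rfl⟩
      intro x hx
      refine k3 S hS x (Relation.TransGen.mono
        (r := fun a b => a ∈ S ∩ A i ∧ b ∈ S ∩ A i ∧ E i a b) ?_ x x hx)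
      rintro a b ⟨ha, hb, hab⟩
      refine ⟨ha.1, hb.1, ((hE i a b).1 hab), Or.inl ⟨?_, i, hpl _ _ ha.2, hab⟩⟩
      rw [hpl _ _ ha.2, hpl _ _ hb.2]

/-! ### Small sets -/

/-- `A` is small: fewer than `κ` colours suffice, uniformly over the family. -/
def Small {Ξ : Type v} (D : Ξ → V → V → Prop) (κ : Cardinal.{u}) (A : Set V) : Prop :=
  ∃ c < κ, ∀ ξ, Col (D ξ) A c

section small

variable {Ξ : Type v} {D : Ξ → V → V → Prop} {κ : Cardinal.{u}}

theorem Small.mono {A B : Set V} (h : Small D κ A) (hB : B ⊆ A) : Small D κ B := by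
  obtain ⟨c, hc, h1⟩ := h
  exact ⟨c, hc, fun ξ => (h1 ξ).mono hB le_rfl⟩

theorem Small.union (hκ : ℵ₀ ≤ κ) {A B : Set V} (hA : Small D κ A) (hB : Small D κ B) :
    Small D κ (A ∪ B) := by
  obtain ⟨c, hc, h1⟩ := hA
  obtain ⟨d, hd, h2⟩ := hB
  exact ⟨c + d, Cardinal.add_lt_of_lt hκ hc hd, fun ξ => col_union (h1 ξ) (h2 ξ)⟩

theorem Small.iUnion (hκ : ℵ₀ ≤ κ) {J : Type u} (hJ : #J < κ.ord.cof) {A : J → Set V}
    (hA : ∀ j, Small D κ (A j)) : Small D κ (⋃ j, A j) := by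
  choose c hc h1 using hA
  refine ⟨#J * ⨆ j, c j, ?_, fun ξ => col_iUnion _ _ (fun j => ?_)⟩
  · exact Cardinal.mul_lt_of_lt hκ (hJ.trans_le (Ordinal.cof_ord_le κ))
      (Cardinal.iSup_lt_of_lt_cof_ord hJ hc)
  · exact (h1 j ξ).mono (subset_refl _) (le_ciSup Cardinal.bddAbove_of_small j)

/-- small sets with a common bound: unions of fewer than `κ` of them are small -/
theorem small_iUnion_of_bound (hκ : ℵ₀ ≤ κ) {J : Type u} (hJ : #J < κ) {A : J → Set V}
    {c : Cardinal.{u}} (hc : c < κ) (hA : ∀ j ξ, Col (D ξ) (A j) c) : Small D κ (⋃ j, A j) :=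
  ⟨#J * c, Cardinal.mul_lt_of_lt hκ hJ hc, fun ξ => col_iUnion _ _ (fun j => hA j ξ)⟩

theorem small_empty (hκ : ℵ₀ ≤ κ) : Small D κ (∅ : Set V) :=
  ⟨0, Cardinal.aleph0_pos.trans_le hκ, fun _ => ⟨∅, by simp, by simp, by simp⟩⟩

theorem col_finite {D : V → V → Prop} (hD : ∀ x, ¬ D x x) {A : Set V} :
    Col D A #A := by
  refine ⟨range fun x : A => {x.1}, Cardinal.mk_range_le, ?_, ?_⟩
  · intro x hx
    exact ⟨{x}, ⟨⟨x, hx⟩, rfl⟩, rfl⟩
  · rintro _ ⟨k, rfl⟩ x hx
    obtain ⟨z, hz, _⟩ := Relation.TransGen.head'_iff.1 hx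
    obtain ⟨h1, h2, h3⟩ := hz
    simp only [mem_singleton_iff] at h1 h2
    subst h1
    subst h2
    exact hD _ h3

end small

/-! ### Compactness -/

theorem compact (D : V → V → Prop) (W : Set V) (n : ℕ)
    (h : ∀ A ⊆ W, A.Finite → Col D A ((n + 1 : ℕ) : Cardinal.{u})) :
    Col D W ((n + 1 : ℕ) : Cardinal.{u}) := by
  classical
  let K : Type u := ULift.{u} (Fin (n + 1))
  have hK : #K = ((n + 1 : ℕ) : Cardinal.{u}) := by simp [K]
  have hg : ∀ F : Finset V, ∃ g : V → K, ∀ k, AcyclicOn D {x | x ∈ (F : Set V) ∩ W ∧ g x = k} := by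
    intro F
    refine fun_of_col ?_
    rw [hK]
    exact h _ inter_subset_right (F.finite_toSet.inter_of_left _)
  choose g hg using hg
  let U : Ultrafilter (Finset V) := Ultrafilter.of Filter.atTop
  have hU : ∀ x : V, ∀ᶠ F : Finset V in (U : Filter (Finset V)), x ∈ F := by
    intro x
    have h1 : ∀ᶠ F in (Filter.atTop : Filter (Finset V)), x ∈ F :=
      (Filter.eventually_ge_atTop {x}).mono (fun F hF => hF (Finset.mem_singleton_self x))
    exact Ultrafilter.of_le _ h1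
  have hlim : ∀ x : V, ∃ k : K, ∀ᶠ F : Finset V in (U : Filter (Finset V)), g F x = k := by
    intro x
    obtain ⟨k, hk⟩ := (U.map (fun F => g F x)).eq_pure_of_finite
    refine ⟨k, ?_⟩
    have h1 : {k} ∈ U.map (fun F => g F x) := by
      rw [hk]
      exact Ultrafilter.mem_pure.2 rfl
    exact Ultrafilter.mem_map.1 h1
  choose f hf using hlim
  rw [← hK]
  refine col_of_fun f (fun k x hx => ?_)
  have key : ∀ y, Relation.TransGen
      (fun a b => a ∈ {x | x ∈ W ∧ f x = k} ∧ b ∈ {x | x ∈ W ∧ f x = k} ∧ D a b) x y →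
      ∀ᶠ F : Finset V in (U : Filter (Finset V)), Relation.TransGen
        (fun a b => a ∈ {x | x ∈ (F : Set V) ∩ W ∧ g F x = k} ∧
          b ∈ {x | x ∈ (F : Set V) ∩ W ∧ g F x = k} ∧ D a b) x y := by
    intro y hy
    have step : ∀ a b, (a ∈ {x | x ∈ W ∧ f x = k} ∧ b ∈ {x | x ∈ W ∧ f x = k} ∧ D a b) →
        ∀ᶠ F : Finset V in (U : Filter (Finset V)), (a ∈ {x | x ∈ (F : Set V) ∩ W ∧ g F x = k} ∧
          b ∈ {x | x ∈ (F : Set V) ∩ W ∧ g F x = k} ∧ D a b) := by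
      rintro a b ⟨⟨ha, hfa⟩, ⟨hb, hfb⟩, hab⟩
      filter_upwards [hU a, hU b, hf a, hf b] with F h1 h2 h3 h4
      exact ⟨⟨⟨h1, ha⟩, h3.trans hfa⟩, ⟨⟨h2, hb⟩, h4.trans hfb⟩, hab⟩
    induction hy with
    | single h =>
      filter_upwards [step _ _ h] with F hF
      exact Relation.TransGen.single hF
    | tail _ h ih =>
      filter_upwards [step _ _ h, ih] with F hF hF'
      exact Relation.TransGen.tail hF' hF
  obtain ⟨F, hF⟩ := (key x hx).exists
  exact hg F k x hF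

/-! ### A cofinal sequence of cardinals -/

theorem exists_seq {κ : Cardinal.{u}} :
    ∃ l : κ.ord.cof.ord.ToType → Cardinal.{u}, (∀ i, l i < κ) ∧ ∀ c < κ, ∃ i, c ≤ l i := by
  obtain ⟨s, hs, hs'⟩ := Order.exists_cof_eq κ.ord.ToType
  have h1 : #s = #(κ.ord.cof.ord.ToType) := by
    rw [hs', Ordinal.cof_toType, Cardinal.mk_ord_toType]
  obtain ⟨e⟩ := Cardinal.eq.1 h1.symm
  refine ⟨fun i => (Ordinal.typein (α := κ.ord.ToType) (· < ·) (e i).1).card, fun i => ?_,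
    fun c hc => ?_⟩
  · rw [← Cardinal.lt_ord]
    exact Ordinal.typein_lt_self _
  · have hc' : c.ord < Ordinal.type (α := κ.ord.ToType) (· < ·) := by
      rw [Ordinal.type_toType]
      exact Cardinal.ord_lt_ord.2 hc
    obtain ⟨b, hb, hab⟩ := hs (Ordinal.enum (α := κ.ord.ToType) (· < ·) ⟨c.ord, hc'⟩)
    refine ⟨e.symm ⟨b, hb⟩, ?_⟩
    simp only [Equiv.apply_symm_apply]
    have h2 : c.ord ≤ Ordinal.typein (α := κ.ord.ToType) (· < ·) b := by
      rw [← Ordinal.typein_enum (α := κ.ord.ToType) (· < ·) hc']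
      exact (Ordinal.typein_le_typein _).2 (not_lt.2 hab)
    have h3 := Ordinal.card_le_card h2
    rwa [Cardinal.card_ord] at h3

/-! ### Pairwise disjoint rich sets -/

theorem disjoint_of_star {Ξ : Type v} {D : Ξ → V → V → Prop} {κ : Cardinal.{u}} (hκ : ℵ₀ ≤ κ)
    (hbig : ¬ Small D κ Set.univ)
    (l : κ.ord.cof.ord.ToType → Cardinal.{u}) (hl : ∀ i, l i < κ)
    (hstar : ∀ W, ¬ Small D κ W → ∀ c < κ, ∃ A ⊆ W, Small D κ A ∧ ∃ ξ, ¬ Col (D ξ) A c) :
    ∃ A : κ.ord.cof.ord.ToType → Set V, (∀ i j, i ≠ j → Disjoint (A i) (A j)) ∧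
      ∀ i, ∃ ξ, ¬ Col (D ξ) (A i) (l i) := by
  classical
  let pick : Set V → κ.ord.cof.ord.ToType → Set V := fun B i =>
    if h : ∃ A ⊆ Bᶜ, Small D κ A ∧ ∃ ξ, ¬ Col (D ξ) A (l i) then h.choose else ∅
  let A : κ.ord.cof.ord.ToType → Set V :=
    WellFounded.fix (wellFounded_lt (α := κ.ord.cof.ord.ToType))
      (fun i rec => pick (⋃ j : {j // j < i}, rec j.1 j.2) i)
  have hA : ∀ i, A i = pick (⋃ j : {j // j < i}, A j.1) i := fun i => WellFounded.fix_eq _ _ _
  have hsmall : ∀ i, Small D κ (A i) := by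
    intro i
    rw [hA i]
    by_cases h : ∃ A' ⊆ (⋃ j : {j // j < i}, A j.1)ᶜ, Small D κ A' ∧ ∃ ξ, ¬ Col (D ξ) A' (l i)
    · simp only [pick, h, dite_true]
      exact h.choose_spec.2.1
    · simp only [pick, h, dite_false]
      exact small_empty hκ
  have hprev : ∀ i, ¬ Small D κ (⋃ j : {j // j < i}, A j.1)ᶜ := by
    intro i hs
    apply hbig
    have h0 : #(Set.Iio i) < κ.ord.cof := by
      simpa using Cardinal.mk_Iio_lt i
    have h1 : Small D κ (⋃ j : {j // j < i}, A j.1) := Small.iUnion hκ h0 (fun j => hsmall _)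
    have h2 := h1.union hκ hs
    rwa [Set.union_compl_self] at h2
  have hspec : ∀ i, A i ⊆ (⋃ j : {j // j < i}, A j.1)ᶜ ∧ ∃ ξ, ¬ Col (D ξ) (A i) (l i) := by
    intro i
    have h := hstar _ (hprev i) (l i) (hl i)
    rw [hA i]
    simp only [pick, h, dite_true]
    exact ⟨h.choose_spec.1, h.choose_spec.2.2⟩
  have hlt : ∀ i j, i < j → Disjoint (A i) (A j) := by
    intro i j hij
    rw [Set.disjoint_left]
    intro x hx hx'
    exact (hspec j).1 hx' (mem_iUnion.2 ⟨⟨i, hij⟩, hx⟩)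
  refine ⟨A, fun i j hij => ?_, fun i => (hspec i).2⟩
  rcases lt_or_gt_of_ne hij with h | h
  · exact hlt i j h
  · exact (hlt j i h).symm

/-- splitting a subset of a homogeneous set `W` into the big colour classes -/
theorem classes {Ξ : Type v} {D : Ξ → V → V → Prop} {κ : Cardinal.{u}} (hκ : ℵ₀ ≤ κ)
    {W : Set V} {c : Cardinal.{u}} (hc : c < κ)
    (hW : ∀ A ⊆ W, Small D κ A → ∀ ξ, Col (D ξ) A c)
    (hlt : ∀ ξ, ∃ c < κ, Col (D ξ) Set.univ c) {A : Set V} (hA : A ⊆ W) (ξ : Ξ) :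
    ∃ (K : Type u) (B : K → Set V), (∀ k, B k ⊆ A ∧ ¬ Small D κ (B k)) ∧
      (∀ k k', k ≠ k' → Disjoint (B k) (B k')) ∧ Small D κ (A \ ⋃ k, B k) ∧
      Col (D ξ) (⋃ k, B k) #K := by
  classical
  obtain ⟨d, hd, hcol⟩ := hlt ξ
  have hd' : max d 1 < κ := max_lt hd (Cardinal.one_lt_aleph0.trans_le hκ)
  have hK : #((max d 1).out) = max d 1 := Cardinal.mk_out _
  have : Nonempty (max d 1).out := by
    rw [← Cardinal.mk_ne_zero_iff, hK]
    exact (lt_of_lt_of_le one_pos (le_max_right _ _)).ne'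
  obtain ⟨f, hf⟩ := fun_of_col (K := (max d 1).out)
    (by rw [hK]; exact hcol.mono (subset_refl _) (le_max_left _ _))
  refine ⟨{k : (max d 1).out // ¬ Small D κ {x | x ∈ A ∧ f x = k}},
    fun k => {x | x ∈ A ∧ f x = k.1}, fun k => ⟨fun x hx => hx.1, k.2⟩, ?_, ?_, ?_⟩
  · intro k k' hkk
    rw [Set.disjoint_left]
    rintro x ⟨_, hx⟩ ⟨_, hx'⟩
    exact hkk (Subtype.ext (hx.symm.trans hx'))
  · have h1 : Small D κ (⋃ k : {k : (max d 1).out // Small D κ {x | x ∈ A ∧ f x = k}},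
        {x | x ∈ A ∧ f x = k.1}) := by
      refine small_iUnion_of_bound hκ ?_ hc (fun k ξ' => ?_)
      · exact lt_of_le_of_lt ((Cardinal.mk_subtype_le _).trans hK.le) hd'
      · exact hW _ (fun x hx => hA hx.1) k.2 ξ'
    refine h1.mono ?_
    rintro x ⟨hx, hx'⟩
    refine mem_iUnion.2 ⟨⟨f x, ?_⟩, hx, rfl⟩
    by_contra hns
    exact hx' (mem_iUnion.2 ⟨⟨f x, hns⟩, hx, rfl⟩)
  · refine ⟨range fun k : {k : (max d 1).out // ¬ Small D κ {x | x ∈ A ∧ f x = k}} =>
      {x | x ∈ A ∧ f x = k.1}, Cardinal.mk_range_le, ?_, ?_⟩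
    · intro x hx
      obtain ⟨k, hk⟩ := mem_iUnion.1 hx
      exact ⟨_, ⟨k, rfl⟩, hk⟩
    · rintro _ ⟨k, rfl⟩
      exact (hf k.1).mono (fun x hx => ⟨Set.mem_univ x, hx.2⟩)

/-- There is a proper `κ`-complete ideal on `V` which contains all singletons, is
`κ`-saturated, and whose positive sets all split into at least `θ` pairwise disjoint positive
sets, for every `θ < κ`. -/
def HasSaturatedIdeal (V : Type u) (κ : Cardinal.{u}) : Prop :=
  ∃ 𝓘 : Set (Set V), Set.univ ∉ 𝓘 ∧ (∀ A ∈ 𝓘, ∀ B ⊆ A, B ∈ 𝓘) ∧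
    (∀ 𝓕 ⊆ 𝓘, #𝓕 < κ → ⋃₀ 𝓕 ∈ 𝓘) ∧ (∀ x, {x} ∈ 𝓘) ∧
    (∀ 𝓕 : Set (Set V), 𝓕.PairwiseDisjoint id → (∀ A ∈ 𝓕, A ∉ 𝓘) → #𝓕 < κ) ∧
    (∀ A ∉ 𝓘, ∀ θ < κ, ∃ 𝓕 : Set (Set V), 𝓕.PairwiseDisjoint id ∧
      (∀ B ∈ 𝓕, B ⊆ A ∧ B ∉ 𝓘) ∧ θ ≤ #𝓕)

theorem core (G : SimpleGraph V) {κ : Cardinal.{u}} (hκ : ℵ₀ ≤ κ) {Ξ : Type v}
    (D : Ξ → V → V → Prop) (hD : ∀ ξ, IsOrientation G (D ξ))
    (hlub : IsLUB (range fun ξ => dichi (D ξ)) κ)
    (hno : ¬ ∃ E, IsOrientation G E ∧ dichi E = κ) :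
    WeaklyInaccessible κ ∧ HasSaturatedIdeal V κ := by
  classical
  have hirr : ∀ ξ x, ¬ D ξ x x := fun ξ x h => absurd rfl (((hD ξ x x).1 h).ne)
  have hlt : ∀ ξ, dichi (D ξ) < κ := fun ξ =>
    lt_of_le_of_ne (hlub.1 ⟨ξ, rfl⟩) (fun h => hno ⟨D ξ, hD ξ, h⟩)
  have hub : ∀ c < κ, ∃ ξ, c < dichi (D ξ) := by
    intro c hc
    obtain ⟨_, ⟨ξ, rfl⟩, h⟩ := (lt_isLUB_iff hlub).1 hc
    exact ⟨ξ, h⟩
  have hlim : ∀ c < κ, Order.succ c < κ := by
    intro c hc
    obtain ⟨ξ, hξ⟩ := hub c hc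
    exact lt_of_le_of_lt (Order.succ_le_of_lt hξ) (hlt ξ)
  obtain ⟨l, hl, hl'⟩ := exists_seq (κ := κ)
  choose s hs using fun i => hub (l i) (hl i)
  -- the subfamily indexed by the cofinality
  set D' : κ.ord.cof.ord.ToType → V → V → Prop := fun i => D (s i) with hD'
  have hbig : ¬ Small D' κ Set.univ := by
    rintro ⟨c, hc, h1⟩
    obtain ⟨i, hi⟩ := hl' c hc
    have h2 : dichi (D (s i)) ≤ c := (dichi_le_iff _ (hirr _) _).2 (h1 i)
    exact absurd (hs i) (not_lt.2 (h2.trans hi))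
  have hcolu : ∀ i, ∃ c < κ, Col (D' i) Set.univ c := fun i =>
    ⟨dichi (D (s i)), hlt _, (dichi_le_iff _ (hirr _) _).1 le_rfl⟩
  have hκ0 : κ ≠ 0 := (Cardinal.aleph0_pos.trans_le hκ).ne'
  -- a family of pairwise disjoint rich sets gives an orientation
  have hfam : ¬ ∃ A : κ.ord.cof.ord.ToType → Set V, (∀ i j, i ≠ j → Disjoint (A i) (A j)) ∧
      ∀ i, ∃ ξ, ¬ Col (D' ξ) (A i) (l i) := by
    rintro ⟨A, hA, hA'⟩
    choose g hg using hA'
    apply hno
    refine combine G hκ0 A hA (fun i => D' (g i)) (fun i => hD _) (fun i => ?_) (fun c hc => ?_)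
    · obtain ⟨c, hc, h⟩ := hcolu (g i)
      exact h.mono (Set.subset_univ _) hc.le
    · obtain ⟨i, hi⟩ := hl' c hc
      exact ⟨i, fun h => hg i (h.mono (subset_refl _) hi)⟩
  have hfam2 : ¬ ∃ A : κ.ord.cof.ord.ToType → Set V, (∀ i j, i ≠ j → Disjoint (A i) (A j)) ∧
      ∀ i, ¬ Small D' κ (A i) := by
    rintro ⟨A, hA, hA'⟩
    refine hfam ⟨A, hA, fun i => ?_⟩
    by_contra h
    push Not at h
    exact hA' i ⟨l i, hl i, h⟩
  have hnstar : ¬ ∀ W, ¬ Small D' κ W → ∀ c < κ, ∃ A ⊆ W, Small D' κ A ∧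
      ∃ ξ, ¬ Col (D' ξ) A c := fun h => hfam (disjoint_of_star hκ hbig l hl h)
  have hunc : ℵ₀ < κ := by
    refine lt_of_le_of_ne hκ (fun h => hnstar ?_)
    intro W hW c hc
    rw [← h] at hc
    obtain ⟨n, rfl⟩ := Cardinal.lt_aleph0.1 hc
    by_contra hcon
    push Not at hcon
    apply hW
    refine ⟨((n + 1 : ℕ) : Cardinal.{u}), ?_, fun ξ => compact _ _ _ (fun A hA hfin => ?_)⟩
    · rw [← h]
      exact Cardinal.natCast_lt_aleph0
    · refine (hcon A hA ⟨#A, ?_, fun ξ' => col_finite (hirr _)⟩ ξ).mono (subset_refl _) ?_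
      · rw [← h]
        exact hfin.lt_aleph0
      · exact_mod_cast Nat.le_succ n
  push Not at hnstar
  obtain ⟨W, hW, c, hc, hWc⟩ := hnstar
  have hcls := fun (A : Set V) (hA : A ⊆ W) => classes hκ hc hWc hcolu hA
  have hreg : κ.IsRegular := by
    by_contra hreg
    have hμ : κ.ord.cof < κ := (Cardinal.IsSingular.of_not_isRegular hκ hreg).cof_ord_lt
    choose K B h1 h2 h3 h4 using hcls W (subset_refl _)
    have h5 : ∀ ξ, #(K ξ) < κ.ord.cof := by
      intro ξ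
      by_contra hle
      have hle' : #(κ.ord.cof.ord.ToType) ≤ #(K ξ) := by
        rw [Cardinal.mk_ord_toType]
        exact not_lt.1 hle
      obtain ⟨e⟩ : Nonempty (κ.ord.cof.ord.ToType ↪ K ξ) := hle'
      exact hfam2 ⟨fun i => B ξ (e i), fun i j hij => h2 ξ _ _ (fun h => hij (e.injective h)),
        fun i => (h1 ξ _).2⟩
    have h6 : Small D' κ (⋃ ξ, (W \ ⋃ k, B ξ k)) := by
      refine small_iUnion_of_bound hκ ?_ hc (fun ξ ξ' => hWc _ (fun x hx => hx.1) (h3 ξ) ξ')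
      rwa [Cardinal.mk_ord_toType]
    have h7 : Small D' κ (W ∩ ⋂ ξ, ⋃ k, B ξ k) :=
      ⟨κ.ord.cof, hμ, fun ξ => (h4 ξ).mono (fun x hx => mem_iInter.1 hx.2 ξ) (h5 ξ).le⟩
    refine hW ((h7.union hκ h6).mono (fun x hx => ?_))
    by_cases hx' : x ∈ ⋂ ξ, ⋃ k, B ξ k
    · exact Or.inl ⟨hx, hx'⟩
    · right
      rw [mem_iInter] at hx'
      push Not at hx'
      obtain ⟨ξ, hξ⟩ := hx'
      exact mem_iUnion.2 ⟨ξ, hx, hξ⟩
  have hcof : κ.ord.cof = κ := hreg.cof_ord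
  refine ⟨⟨hunc, hreg, hlim⟩, {A | Small D' κ (A ∩ W)}, ?_, ?_, ?_, ?_, ?_, ?_⟩
  · intro h
    exact hW (Small.mono h (fun x hx => ⟨Set.mem_univ x, hx⟩))
  · intro A hA B hB
    exact Small.mono hA (Set.inter_subset_inter_left _ hB)
  · intro 𝓕 h𝓕 hcard
    have h1 : Small D' κ (⋃ A : 𝓕, A.1 ∩ W) :=
      Small.iUnion hκ (by rwa [hcof]) (fun A => h𝓕 A.2)
    refine Small.mono h1 ?_
    rintro x ⟨⟨A, hA, hx⟩, hxW⟩
    exact mem_iUnion.2 ⟨⟨A, hA⟩, hx, hxW⟩
  · intro x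
    refine ⟨#({x} : Set V), ?_, fun ξ => (col_finite (hirr _)).mono Set.inter_subset_left le_rfl⟩
    rw [Cardinal.mk_singleton]
    exact Cardinal.one_lt_aleph0.trans_le hκ
  · intro 𝓕 hdis hpos
    by_contra hle
    have hle' : #(κ.ord.cof.ord.ToType) ≤ #𝓕 := by
      rw [Cardinal.mk_ord_toType, hcof]
      exact not_lt.1 hle
    obtain ⟨e⟩ : Nonempty (κ.ord.cof.ord.ToType ↪ 𝓕) := hle'
    refine hfam2 ⟨fun i => (e i).1 ∩ W, fun i j hij => ?_, fun i => hpos _ (e i).2⟩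
    exact (hdis (e i).2 (e j).2 (fun h => hij (e.injective (Subtype.ext h)))).mono
      Set.inter_subset_left Set.inter_subset_left
  · intro A hA θ hθ
    by_contra hcon
    push Not at hcon
    apply hA
    refine ⟨θ + c, Cardinal.add_lt_of_lt hκ hθ hc, fun ξ => ?_⟩
    obtain ⟨K, B, h1, h2, h3, h4⟩ := hcls (A ∩ W) Set.inter_subset_right ξ
    have hBne : ∀ k, (B k).Nonempty := by
      intro k
      by_contra hk
      rw [Set.not_nonempty_iff_eq_empty] at hk
      apply (h1 k).2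
      rw [hk]
      exact small_empty hκ
    have hinj : Function.Injective B := by
      intro k k' hkk
      by_contra hne
      obtain ⟨x, hx⟩ := hBne k
      exact Set.disjoint_left.1 (h2 k k' hne) hx (hkk ▸ hx)
    have h5 : #K < θ := by
      rw [← Cardinal.mk_range_eq B hinj]
      refine hcon (range B) ?_ ?_
      · rintro _ ⟨k, rfl⟩ _ ⟨k', rfl⟩ hne
        exact h2 k k' (fun h => hne (congrArg B h))
      · rintro _ ⟨k, rfl⟩
        refine ⟨fun x hx => ((h1 k).1 hx).1, fun h => (h1 k).2 ?_⟩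
        exact Small.mono h (fun x hx => ⟨hx, ((h1 k).1 hx).2⟩)
    have h6 : Col (D' ξ) ((A ∩ W) \ ⋃ k, B k) c := hWc _ (fun x hx => hx.1.2) h3 ξ
    exact (col_union (h4.mono (subset_refl _) h5.le) h6).mono
      (by intro x hx; by_cases h : x ∈ ⋃ k, B k; exact Or.inl h; exact Or.inr ⟨hx, h⟩) le_rfl

/-- **Main theorem.** Let `κ` be an infinite cardinal which is not weakly inaccessible, or such
that `V` carries no ideal as in `HasSaturatedIdeal`. If orientations `D ξ` of a graph `G` on `V`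
have dichromatic numbers with supremum `κ` then some orientation of `G` has dichromatic number
exactly `κ`. -/
theorem result {V : Type u} (G : SimpleGraph V) (κ : Cardinal.{u}) (hκ : ℵ₀ ≤ κ)
    (hκ' : ¬ WeaklyInaccessible κ ∨ ¬ HasSaturatedIdeal V κ) {Ξ : Type v}
    (D : Ξ → V → V → Prop) (hD : ∀ ξ, IsOrientation G (D ξ))
    (hsup : IsLUB (Set.range fun ξ => dichi (D ξ)) κ) :
    ∃ E : V → V → Prop, IsOrientation G E ∧ dichi E = κ := by
  by_contra hno
  obtain ⟨h1, h2⟩ := core G hκ D hD hsup hno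
  rcases hκ' with h | h
  · exact h h1
  · exact h h2

end Pool.Agent.Results.MP_6967ea_co.Attain
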